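import Mathlib
import Pool.Agent.N969.P17G.Defs

/-!
# The parity law for positive discriminants of level 17
-/

set_option autoImplicit false

namespace Pool.Agent.N972.P17G

open Finset
open Pool.Agent.N969.P15 (V3 tw ep2 Qc psp un)
open Pool.Agent.N972.P17
open Pool.Agent.N969.P17G

/-! ### the classes -/

theorem jac_mul (a b : ℕ) : jacobiSym (a * b : ℕ) 17 = jacobiSym a 17 * jacobiSym b 17 := by
  rw [Nat.cast_mul, jacobiSym.mul_left]

theorem cm_mul {A m : ℕ} (hA : Cp A) (hm : Cm m) (h : Nat.Coprime A m) : Cm (A * m) := by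
  obtain ⟨h1, h2, h3⟩ := hA
  obtain ⟨g1, g2, g3⟩ := hm
  refine ⟨(Nat.squarefree_mul h).2 ⟨h1, g1⟩, ?_, ?_⟩
  · rw [Nat.mul_mod, h2, g2]
  · rw [jac_mul, h3, g3]; norm_num

theorem cp_one : Cp 1 := ⟨squarefree_one, by norm_num, by norm_num⟩

theorem cm_co {D l A : ℕ} (hD : Cp D) (hl : Cm l) (hco : Nat.Coprime D l) (hA : Cp A) (hAD : A ∣ D) :
    Cm (l * (D / A)) ∧ Nat.Coprime A (l * (D / A)) := by
  obtain ⟨B, rfl⟩ := hAD
  have hA0 : 0 < A := Nat.pos_of_ne_zero hA.1.ne_zero
  rw [Nat.mul_div_cancel_left B hA0]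
  have hsq := hD.1
  have hAB : Nat.Coprime A B := Nat.coprime_of_squarefree_mul hsq
  have hBsq : Squarefree B := ((Nat.squarefree_mul hAB).1 hsq).2
  have hlB : Nat.Coprime l B := (Nat.Coprime.coprime_dvd_left (Dvd.intro_left A rfl) hco).symm
  have hAl : Nat.Coprime A l := Nat.Coprime.coprime_dvd_left (Dvd.intro B rfl) hco
  have h4 : B % 4 = 1 := by
    have h1 := hD.2.1
    rw [Nat.mul_mod, hA.2.1] at h1
    omega
  have h17 : jacobiSym B 17 = 1 := by
    have h1 := hD.2.2
    rw [jac_mul, hA.2.2, one_mul] at h1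
    exact h1
  refine ⟨⟨(Nat.squarefree_mul hlB).2 ⟨hl.1, hBsq⟩, ?_, ?_⟩, Nat.Coprime.mul_right hAl hAB⟩
  · rw [Nat.mul_mod, hl.2.1, h4]
  · rw [jac_mul, hl.2.2, h17]; norm_num

theorem card_primeFactors_mul {a b : ℕ} (h : Nat.Coprime a b) :
    (a * b).primeFactors.card = a.primeFactors.card + b.primeFactors.card := by
  rw [h.primeFactors_mul, card_union_of_disjoint h.disjoint_primeFactors]

/-! ### the auxiliary prime -/

theorem sc_prime {l : ℕ} (hl : l.Prime) (h : Cm l) : Sc l := by
  intro b c hb hc h1 h2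
  have hpf : l.primeFactors = {l} := hl.primeFactors
  rw [hpf] at h1 h2
  have h1 := h1 l (mem_singleton_self l)
  have h2 := h2 l (mem_singleton_self l)
  have hl0 : 0 < l := hl.pos
  have e1 : ¬ l ∣ 1 := fun h => hl.one_lt.ne' (Nat.dvd_one.1 h)
  have hm1 : jacobiSym (-1) l = -1 := by
    rw [jacobiSym.at_neg_one (Nat.odd_iff.2 (by have := h.2.1; omega))]
    exact ZMod.χ₄_nat_three_mod_four h.2.1
  have h17 : jacobiSym 17 l = -1 := by
    have h3 := h.2.2
    have h5 := jacobiSym.quadratic_reciprocity_one_mod_four (a := 17) (b := l) (by norm_num)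
      (Nat.odd_iff.2 (by have := h.2.1; omega))
    have h6 : jacobiSym ((17 : ℕ) : ℤ) l = jacobiSym l 17 := h5
    rw [show ((17 : ℕ) : ℤ) = 17 from rfl] at h6
    rw [h6]; exact h3
  have sw1 : ∀ b : ℕ, b ∣ l → jacobiSym (sw l l b : ℕ) l = 1 := by
    intro b hb
    rcases (Nat.dvd_prime hl).1 hb with rfl | rfl
    · unfold sw; rw [if_neg e1]; simp
    · unfold sw; rw [if_pos (dvd_refl _), Nat.div_self hl0]; simp
  rw [sw1 b hb, one_mul] at h1
  rw [sw1 c hc, one_mul] at h2
  rcases (Nat.dvd_prime hl).1 hb with rfl | rfl <;> rcases (Nat.dvd_prime hl).1 hc with rfl | rfl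
  · exact ⟨rfl, rfl⟩
  · rw [if_neg (by simp [e1])] at h1
    rw [hm1] at h1; norm_num at h1
  · rw [if_neg (by simp [e1])] at h1
    rw [hm1] at h1; norm_num at h1
  · rw [if_pos (dvd_refl _)] at h2
    rw [h17] at h2; norm_num at h2

theorem sx_one : Sx 1 := by
  intro x y _ _ p hp
  simp at hp

/-! ### the parity law -/

open Classical in
theorem t_PARG (hO : S_ORTG) (hV : S_VANG) (hK : S_KAPG) (hP : S_PAR) (hS : S_SxSc) (hR : S_R)
    (hZ : S_ZZ) : S_PARG := by
  intro D
  induction D using Nat.strong_induction_on with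
  | _ D ih =>
  intro l hD hD1 hl hlm hlD
  have hD0 : D ≠ 0 := by omega
  have hco : Nat.Coprime D l := ((Nat.Prime.coprime_iff_not_dvd hl).2 hlD).symm
  have hn : Cm (D * l) := cm_mul hD hlm hco
  have hl0 := hl.pos
  obtain ⟨x, z, hxz, hx1, -, hdiv, -⟩ := hO (D * l) D hn (Dvd.intro l rfl)
  have hw : (D * l).primeFactors.card = D.primeFactors.card + 1 := by
    rw [card_primeFactors_mul hco, hl.primeFactors, card_singleton]
  obtain ⟨k, hk⟩ : ∃ k, D.primeFactors.card = k + 1 :=
    ⟨D.primeFactors.card - 1, by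
      have : 0 < D.primeFactors.card := card_pos.2 (Nat.nonempty_primeFactors.2 hD1)
      omega⟩
  -- the class of the auxiliary prime
  obtain ⟨yl, hyl1, hyl2⟩ := hP l hlm
  have hSl : Sc l := sc_prime hl hlm
  have hylo : Odd yl := hyl2.2 hSl
  rw [hl.primeFactors, card_singleton, pow_one] at hyl1
  -- the indicator
  set c : ℕ → ZMod 2 := fun A => if Cp A ∧ Sx A ∧ Sx (l * (D / A)) then 1 else 0 with hc
  have hQ : ∑ A ∈ D.divisors, c A = if Qc (l * D) then 1 else 0 := by
    have h1 := hZ D l hD hl hlm hlD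
    have h2 : ∑ A ∈ D.divisors, c A =
        (((D.divisors.filter fun A => Cp A ∧ Sx A ∧ Sx (l * (D / A))).card : ℕ) : ZMod 2) := by
      rw [hc, Finset.sum_ite, sum_const, sum_const_zero, add_zero, nsmul_eq_mul, mul_one]
    rw [h2]
    by_cases hq : Qc (l * D)
    · rw [if_pos hq]
      exact (ZMod.natCast_eq_one_iff_odd).2 (h1.2 hq)
    · rw [if_neg hq]
      have h3 : ¬ Odd (D.divisors.filter fun A => Cp A ∧ Sx A ∧ Sx (l * (D / A))).card :=
        fun h => hq (h1.1 h)
      exact (ZMod.natCast_eq_zero_iff_even).2 (Nat.not_odd_iff_even.1 h3)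
  -- the terms
  have key : ∀ A ∈ D.divisors.erase D, ∃ x' : ℤ, x A = 2 ^ k * x' ∧
      (x' : ZMod 2) = c A + if A = 1 then (if Qc (l * D) then 1 else 0) else 0 := by
    intro A hA
    rw [mem_erase, Nat.mem_divisors] at hA
    obtain ⟨hAD, hAd, -⟩ := hA
    by_cases hCp : Cp A
    · by_cases hA1 : A = 1
      · subst hA1
        obtain ⟨g, hg1, hg2⟩ := hR (D * l) hn (by nlinarith [hl.two_le])
        obtain ⟨y, hy1, hy2⟩ := hP (D * l) hn
        refine ⟨3 * g + y, ?_, ?_⟩
        · have h1 : 4 * ((vec1 ((D * l : ℕ) : ℤ)).card : ℤ) =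
              rr ((D * l : ℕ) : ℤ) + cc ((D * l : ℕ) : ℤ) := by
            unfold rr cc; ring
          rw [hg1, hy1, hw, hk] at h1
          rw [hx1]
          have h2 : (2 : ℤ) ^ (k + 1 + 1) = 4 * 2 ^ k := by ring
          rw [h2] at h1
          linarith
        · rw [if_pos rfl]
          have e1 : c 1 = if Sx (l * D) then 1 else 0 := by
            rw [hc]
            simp only [Nat.div_one]
            congr 1
            simp [cp_one, sx_one]
          have e2 : (y : ZMod 2) = if Sx (l * D) then 1 else 0 := by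
            have h3 : Odd y ↔ Sx (l * D) := by
              rw [hy2, ← hS _ hn, mul_comm]
            by_cases h4 : Sx (l * D)
            · rw [if_pos h4]; exact (ZMod.intCast_eq_one_iff_odd).2 (h3.2 h4)
            · rw [if_neg h4]
              exact (ZMod.intCast_eq_zero_iff_even).2 (Int.not_odd_iff_even.1 fun h => h4 (h3.1 h))
          have e3 : (g : ZMod 2) = if Qc (l * D) then 1 else 0 := by
            rw [mul_comm D l] at hg2
            by_cases h4 : Qc (l * D)
            · rw [if_pos h4]; exact (ZMod.intCast_eq_one_iff_odd).2 (hg2.2 h4)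
            · rw [if_neg h4]
              exact (ZMod.intCast_eq_zero_iff_even).2 (Int.not_odd_iff_even.1 fun h => h4 (hg2.1 h))
          push_cast
          rw [e1, e2, e3, show (3 : ZMod 2) = 1 from rfl, one_mul, add_comm]
      · rw [if_neg hA1, add_zero]
        have hA1' : 1 < A := by
          have : A ≠ 0 := hCp.1.ne_zero
          omega
        have hAlt : A < D := lt_of_le_of_ne (Nat.le_of_dvd (by omega) hAd) hAD
        have hlA : ¬ l ∣ A := fun h => hlD (h.trans hAd)
        obtain ⟨y, hy1, hy2⟩ := ih A hAlt l hCp hA1' hl hlm hlA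
        obtain ⟨hm1, hm2⟩ := cm_co hD hlm hco hCp hAd
        obtain ⟨c0, hc0⟩ := hK A hCp hA1'
        have hcoA : Nat.Coprime A l := Nat.Coprime.coprime_dvd_left hAd hco
        have h1 := hc0 l ⟨hCp, hlm, hcoA⟩
        have h2 := hc0 (l * (D / A)) ⟨hCp, hm1, hm2⟩
        have hn2 : A * (l * (D / A)) = D * l := by
          rw [mul_comm l, ← mul_assoc, Nat.mul_div_cancel' hAd]
        rw [hn2, (hxz A hAd).1] at h2
        rw [hy1, hyl1] at h1
        obtain ⟨ym, hym1, hym2⟩ := hP _ hm1
        rw [hym1] at h2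
        have hwm : (l * (D / A)).primeFactors.card + A.primeFactors.card = k + 2 := by
          have h3 := card_primeFactors_mul hm2
          rw [hn2, hw, hk] at h3
          omega
        obtain ⟨j, hj⟩ : ∃ j, A.primeFactors.card = j + 1 :=
          ⟨A.primeFactors.card - 1, by
            have : 0 < A.primeFactors.card := card_pos.2 (Nat.nonempty_primeFactors.2 hA1')
            omega⟩
        rw [hj, Nat.add_sub_cancel] at h1
        -- x A ^ 2 (2 yl)^2 = (2^j y)^2 (2^wm ym)^2
        have h4 : ((x A * yl : ℤ) : ℚ) ^ 2 = ((2 ^ k * (y * ym) : ℤ) : ℚ) ^ 2 := by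
          push_cast at h1 h2 ⊢
          have hj2 : (l * (D / A)).primeFactors.card + j = k + 1 := by omega
          have h5 : (2 : ℚ) ^ (l * (D / A)).primeFactors.card * 2 ^ j = 2 * 2 ^ k := by
            rw [← pow_add, hj2, pow_succ]; ring
          have h6 : (4 : ℚ) * ((x A : ℚ) * yl) ^ 2 = 4 * (2 ^ k * ((y : ℚ) * ym)) ^ 2 := by
            calc (4 : ℚ) * ((x A : ℚ) * yl) ^ 2 = ((x A : ℚ) ^ 2) * (2 * yl) ^ 2 := by ring
              _ = (c0 * (2 ^ (l * (D / A)).primeFactors.card * (ym : ℚ)) ^ 2) * (2 * yl) ^ 2 := by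
                  rw [h2]
              _ = (c0 * (2 * (yl : ℚ)) ^ 2) *
                  (2 ^ (l * (D / A)).primeFactors.card * (ym : ℚ)) ^ 2 := by ring
              _ = ((2 : ℚ) ^ j * y) ^ 2 * (2 ^ (l * (D / A)).primeFactors.card * (ym : ℚ)) ^ 2 := by
                  rw [← h1]
              _ = (((2 : ℚ) ^ (l * (D / A)).primeFactors.card * 2 ^ j) * (y * ym)) ^ 2 := by ring
              _ = _ := by rw [h5]; ring
          linarith
        have h5 : (x A * yl) ^ 2 = (2 ^ k * (y * ym)) ^ 2 := by exact_mod_cast h4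
        have h6 : (2 : ℤ) ^ k ∣ x A := by
          have h7 : (2 : ℤ) ^ k ∣ x A * yl := by
            rcases sq_eq_sq_iff_eq_or_eq_neg.1 h5 with h8 | h8
            · exact ⟨_, h8⟩
            · exact ⟨-(y * ym), by rw [h8]; ring⟩
          have hc2 : IsCoprime ((2 : ℤ) ^ k) yl := by
            apply IsCoprime.pow_left
            exact Int.isCoprime_two_left.2 hylo
          exact hc2.dvd_of_dvd_mul_right h7
        obtain ⟨x', hx'⟩ := h6
        refine ⟨x', hx', ?_⟩
        have h7 : (x' * yl) ^ 2 = (y * ym) ^ 2 := by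
          rw [hx'] at h5
          have h8 : ((2 : ℤ) ^ k) ^ 2 * (x' * yl) ^ 2 = (2 ^ k) ^ 2 * (y * ym) ^ 2 := by
            linear_combination h5
          exact mul_left_cancel₀ (by positivity) h8
        have h8 : Odd x' ↔ Odd y ∧ Odd ym := by
          have h9 : Odd ((x' * yl) ^ 2) ↔ Odd ((y * ym) ^ 2) := by rw [h7]
          rw [Int.odd_pow' two_ne_zero, Int.odd_pow' two_ne_zero, Int.odd_mul, Int.odd_mul] at h9
          constructor
          · intro h; exact h9.1 ⟨h, hylo⟩
          · intro h; exact (h9.2 h).1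
        have h9 : Odd x' ↔ (Cp A ∧ Sx A ∧ Sx (l * (D / A))) := by
          rw [h8, hy2, hym2, hS _ hm1]
          exact ⟨fun h => ⟨hCp, h.1, h.2⟩, fun h => h.2⟩
        by_cases h10 : Cp A ∧ Sx A ∧ Sx (l * (D / A))
        · rw [hc]; simp only [if_pos h10]
          exact (ZMod.intCast_eq_one_iff_odd).2 (h9.2 h10)
        · rw [hc]; simp only [if_neg h10]
          exact (ZMod.intCast_eq_zero_iff_even).2 (Int.not_odd_iff_even.1 fun h => h10 (h9.1 h))
    · refine ⟨0, ?_, ?_⟩
      · have h1 := (hV (D * l) A hn (hAd.trans (Dvd.intro l rfl)) hCp).1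
        rw [(hxz A hAd).1] at h1
        rw [pow_eq_zero_iff two_ne_zero] at h1
        rw [h1, mul_zero]
      · have hA1 : A ≠ 1 := by rintro rfl; exact hCp cp_one
        rw [if_neg hA1, hc]
        simp [hCp]
  choose! x' hx' hx'2 using key
  obtain ⟨t, ht⟩ := hdiv
  rw [hk] at ht
  have hDmem : D ∈ D.divisors := Nat.mem_divisors_self D hD0
  have hsum : ∑ A ∈ D.divisors, x A = x D + 2 ^ k * ∑ A ∈ D.divisors.erase D, x' A := by
    rw [← add_sum_erase _ _ hDmem, mul_sum]
    congr 1
    exact sum_congr rfl fun A hA => hx' A hA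
  rw [hsum] at ht
  refine ⟨2 * t - ∑ A ∈ D.divisors.erase D, x' A, ?_, ?_⟩
  · rw [(hxz D (dvd_refl D)).1, hk, Nat.add_sub_cancel]
    have h1 : x D = 2 ^ k * (2 * t - ∑ A ∈ D.divisors.erase D, x' A) := by
      rw [pow_succ] at ht
      linear_combination ht
    rw [h1]
  · have h1 : ((2 * t - ∑ A ∈ D.divisors.erase D, x' A : ℤ) : ZMod 2) =
        if Sx D then 1 else 0 := by
      push_cast
      rw [show (2 : ZMod 2) = 0 from rfl, zero_mul, zero_sub]
      have h2 : ∑ A ∈ D.divisors.erase D, (x' A : ZMod 2) =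
          ∑ A ∈ D.divisors.erase D, c A + if Qc (l * D) then 1 else 0 := by
        rw [sum_congr rfl fun A hA => hx'2 A hA, sum_add_distrib]
        congr 1
        rw [sum_ite_eq' (D.divisors.erase D) 1 (fun _ => if Qc (l * D) then (1 : ZMod 2) else 0)]
        rw [if_pos]
        rw [mem_erase, Nat.mem_divisors]
        exact ⟨by omega, one_dvd D, hD0⟩
      have h3 : c D + ∑ A ∈ D.divisors.erase D, c A = if Qc (l * D) then 1 else 0 := by
        rw [add_sum_erase _ _ hDmem, hQ]
      have h4 : c D = if Sx D then 1 else 0 := by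
        rw [hc]
        simp only [Nat.div_self (Nat.pos_of_ne_zero hD0), mul_one]
        have h5 : Sx l := (hS l hlm).2 hSl
        congr 1
        simp [hD, h5]
      rw [h2, ← h3, h4]
      have h6 : ∀ a b : ZMod 2, -(b + (a + b)) = a := by decide
      exact h6 _ _
    rw [← ZMod.intCast_eq_one_iff_odd, h1]
    by_cases h5 : Sx D
    · simp [h5]
    · simp [h5]

end Pool.Agent.N972.P17G
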